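import Pool.Agent.TH464.PO.LinInst

set_option autoImplicit false

/-!
# Almost prime Cunningham chains of the second kind: the density in all windows around almost all
of them

Let `m` be good if the `k` numbers `2 ^ i m + 1`, `i < k` (the chain `m + 1, 2 m + 1, 4 m + 1, …`
of the second kind of length `k` starting at `m + 1`) all have at most `r` prime factors, all
larger than `X ^ (1 / r)`. Let `V` be the product of `1 - ρ(p) / p` over the primes `p ≤ X ^ (1 /
r)`, `ρ(p)` the number of the bad residues. Given `θ > 0` and `ε > 0` there are `C` and `r0` such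
that for every `r ≥ r0` and all large `X`, in ALL intervals `(Z, Z + Y]` with `Z, Y ≥ X ^ θ`, `Z +
Y ≤ 2 X`, for all but at most `ε Y V` of the good integers `n` of the interval (there are about `Y
V` of them) ALL windows `(u, v]` around `n` inside it of length at least `C / V` contain `(1 ± ε)
(v - u) V` good integers.
-/

namespace Pool.Agent.Results.MP_9f2731_nt.ExactNeighbours

open Finset Filter

/-- `N` has at most `B` prime factors (with multiplicity), all of them larger than `z`. -/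
def AlmostPrime (B : ℕ) (z : ℝ) (N : ℕ) : Prop :=
  N.primeFactorsList.length ≤ B ∧ ∀ p : ℕ, p.Prime → p ∣ N → z < (p : ℝ)

/-- `m` is good: `m + 1` starts an almost prime Cunningham chain of the second kind of length `k`: all the
`2 ^ i m + 1`, `i < k`, have at most `r` prime factors, all larger than `X ^ (1 / r)`. -/
def Good (k r X m : ℕ) : Prop :=
  ∀ i < k, AlmostPrime r ((X : ℝ) ^ (1 / (r : ℝ))) (2 ^ i * m + 1)

open Classical in
/-- The sieve density: the product of `1 - ρ(p) / p` over the primes `p ≤ X ^ (1 / r)`, where `ρ(p)` is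
the number of the `t` mod `p` with `p` dividing one of the `2 ^ i t + 1`, `i < k`. -/
noncomputable def V (k r X : ℕ) : ℝ :=
  ∏ p ∈ (Finset.range (⌊(X : ℝ) ^ (1 / (r : ℝ))⌋₊ + 1)).filter Nat.Prime,
    (1 - (((Finset.range p).filter (fun t : ℕ => ∃ i < k, p ∣ 2 ^ i * t + 1)).card : ℝ) / p)

open Classical in
/-- The number of the good `m` in `(u, v]`. -/
noncomputable def N (k r X : ℕ) (u v : ℕ) : ℕ :=
  ((Finset.Ioc u v).filter (fun m => Good k r X m)).card

/-- All windows around `n` inside `(Z, Z + Y]` of length at least `C / V` have the density `V` up to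
`ε`. -/
def AllWindows (k r X : ℕ) (C ε : ℝ) (Z Y n : ℕ) : Prop :=
  ∀ u v : ℕ, Z ≤ u → u < n → n ≤ v → v ≤ Z + Y → C ≤ ((v : ℝ) - u) * V k r X →
    |(N k r X u v : ℝ) - (v - u) * V k r X| ≤ ε * ((v - u) * V k r X)

open Pool.Agent.TH464.PO Pool.Agent.H373R2.T7 Pool.Agent.W123.RP

lemma fam (k : ℕ) (hk : 2 ≤ k) (r : ℕ) (hr : 1 ≤ r) : ∀ᶠ X : ℕ in atTop, ∀ _ : Unit, True →
    ∃ u v : Fin k → ℤ, LF k u v (X ^ 1) (Real.log X ^ (k + 1)) ∧
      (∀ m ≤ 3 * X, Sf (QL u v) ⌊(X : ℝ) ^ (1 / (r : ℝ))⌋₊ m ↔ Good k r X m) ∧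
      Vq (QL u v) ⌊(X : ℝ) ^ (1 / (r : ℝ))⌋₊ = V k r X := by
  filter_upwards [c2_fam k hk r hr] with X h _ _
  exact ⟨_, _, h.1, h.2, V_nat (c2u k) (fun _ => 1) _ (fun p m => c2_ex k (fun N => p ∣ N) m) _⟩

open Classical in
/-- **The density in all windows around almost all of the good integers.** -/
theorem result (k : ℕ) (hk : 2 ≤ k) (θ : ℝ) (hθ : 0 < θ) (ε : ℝ) (hε : 0 < ε) :
    ∃ (C : ℝ) (r0 : ℕ), 0 < C ∧ ∀ r : ℕ, r0 ≤ r → ∀ᶠ X : ℕ in atTop, 
      ∀ Z Y : ℕ, (X : ℝ) ^ θ ≤ Z → (X : ℝ) ^ θ ≤ Y → Z + Y ≤ 2 * X →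
        (((Finset.Ioc Z (Z + Y)).filter
          (fun n => Good k r X n ∧ ¬ AllWindows k r X C ε Z Y n)).card : ℝ) ≤
            ε * (Y * V k r X) := by
  obtain ⟨C, r0, hC, h⟩ := fam_ex k 1 (by omega) (fun _ (_ : Unit) => True) (fun r X _ m => Good k r X m)
    (fun r X _ => V k r X) (fam k hk) θ hθ ε hε
  refine ⟨C, r0, hC, fun r hr => ?_⟩
  filter_upwards [h r hr] with X hX Z Y hXZ hXY hZY
  exact (hX () trivial Z Y hXZ hXY hZY).2

end Pool.Agent.Results.MP_9f2731_nt.ExactNeighbours
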